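import Pool.Agent.ARC.Stmts
import Pool.Agent.Helper47_SZG.DAL

/-!
# Squad ARC, row DAA: nonvanishing minors bound the archimedean degeneration
-/

set_option autoImplicit false

namespace Pool.Agent.ARC.H34

open scoped BigOperators
open Pool.Agent.THS Pool.Agent.ZES
open Pool.Agent.SZG (Ch Idx gam QS WX Wf Xf Mp FF Bx Row lft Zz IM)
open Pool.Agent.SZG.H47 (prod_split pow_bd final_ineq inf_two nv_nn)

theorem wf_pos {K I : Type} [Field K] [AddCommGroup I] (v : AbsoluteValue K ℝ) (E : ℕ)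
    (e : I → I → K) (i : I) : 0 < Wf v E e i := Real.exp_pos _

/-- the constant `L` -/
theorem exL (σ' : ℝ) (h0 : 0 ≤ σ') :
    ∃ L : ℕ, 1 ≤ L ∧ 2 * σ' + 2 ≤ 2 * Real.pi * (L : ℝ) ^ 2 := by
  refine ⟨⌈σ'⌉₊ + 1, by omega, ?_⟩
  have h1 : σ' ≤ (⌈σ'⌉₊ : ℝ) := Nat.le_ceil _
  have h2 : (3 : ℝ) < Real.pi := Real.pi_gt_three
  push_cast
  have h3 : (⌈σ'⌉₊ : ℝ) + 1 ≤ ((⌈σ'⌉₊ : ℝ) + 1) ^ 2 := by nlinarith
  nlinarith

theorem daa (hAmi : AmiStmt) (hPga : PgaStmt) (hDtv : SZG.DtvStmt) (hWpr : SZG.WprStmt)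
    (hWtx : SZG.WtxStmt) : DaaStmt := by
  intro g σ
  obtain ⟨σ', hσ'⟩ : ∃ σ' : ℝ, σ' = max σ 0 := ⟨_, rfl⟩
  have hσ0 : 0 ≤ σ' := by rw [hσ']; exact le_max_right _ _
  have hσσ : σ ≤ σ' := by rw [hσ']; exact le_max_left _ _
  obtain ⟨L, hL1, hL⟩ := exL σ' hσ0
  refine ⟨2 * (2 * L + 4) * 2 ^ g, by positivity, ?_⟩
  intro l hl hlo d C
  obtain ⟨R, hR⟩ : ∃ R : ℕ, R = 2 * (2 * L + 4) * 2 ^ g * l ^ (2 * g - 1) := ⟨_, rfl⟩
  obtain ⟨R', hR'⟩ : ∃ R' : ℕ, R' = R - (2 * L + 4) * (2 ^ g * l ^ (2 * g - 1)) := ⟨_, rfl⟩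
  have hlpos : 0 < l := hl.pos
  have hRpos : 0 < R := by rw [hR]; positivity
  have hRR' : R ≤ 2 * R' := by
    have e1 : R = 2 * ((2 * L + 4) * (2 ^ g * l ^ (2 * g - 1))) := by rw [hR]; ring
    omega
  obtain ⟨C', hC'⟩ : ∃ C' : ℝ, C' = (R.factorial : ℝ) * (2 * (L : ℝ) + 5) ^ R * (4 * 2 ^ g) ^ R :=
    ⟨_, rfl⟩
  have hf1 : (1 : ℝ) ≤ (R.factorial : ℝ) := by
    have e0 : 1 ≤ R.factorial := Nat.one_le_iff_ne_zero.mpr (Nat.factorial_ne_zero R)
    exact_mod_cast e0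
  have hL5 : (1 : ℝ) ≤ (2 * (L : ℝ) + 5) ^ R :=
    one_le_pow₀ (by have := Nat.cast_nonneg (α := ℝ) L; linarith)
  have h2g : (2 : ℝ) ^ (g * R) ≤ (4 * 2 ^ g) ^ R := by
    rw [pow_mul]
    refine pow_le_pow_left₀ (by positivity) ?_ R
    have : (0 : ℝ) < 2 ^ g := by positivity
    linarith
  have hC'2 : (R.factorial : ℝ) * 2 ^ (g * R) ≤ C' := by
    rw [hC', mul_assoc]
    refine mul_le_mul_of_nonneg_left ?_ (by linarith)
    calc (2 : ℝ) ^ (g * R) ≤ (4 * 2 ^ g) ^ R := h2g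
      _ = 1 * (4 * 2 ^ g) ^ R := (one_mul _).symm
      _ ≤ (2 * (L : ℝ) + 5) ^ R * (4 * 2 ^ g) ^ R :=
          mul_le_mul_of_nonneg_right hL5 (by positivity)
  have hC'1 : 1 ≤ C' :=
    (one_le_mul_of_one_le_of_one_le hf1 (one_le_pow₀ (by norm_num))).trans hC'2
  refine ⟨d * Real.log (C' * 2 ^ (g * R)) / R + C, ?_⟩
  intro K _ _ hd φ τ hτ z E L0 c e s T x hQS hper ν η hν hη hM κ0 hκ hW lam h yz hlam hh hY hyz hH
  rw [← hR]
  intro r k hk hdet
  have hE : 0 < E := hQS.hE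
  obtain ⟨y, hy0, hy⟩ := hWpr K g E L0 c e s T x l hQS R r k
  have hPQ : ∀ v : AbsoluteValue K ℝ, 0 ≤ (∏ i : Fin R, Wf v E e (lft (r i).2)) *
      (nv v (T 0) ^ R * ∏ j : Fin R, Wf v E e ((l * k j) • Zz g)) := by
    intro v
    exact mul_nonneg (Finset.prod_nonneg fun i _ => (wf_pos v E e _).le)
      (mul_nonneg (pow_nonneg (nv_nn v _) _) (Finset.prod_nonneg fun i _ => (wf_pos v E e _).le))
  -- infinite places
  have hinf : ∀ v : NumberField.InfinitePlace K,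
      v.val (IM l e T r k).det ^ (2 * E) ≤ v.val y * (C' * nv v.val (T 0) ^ R) ^ (2 * E) := by
    intro v
    have hwx := hWtx K (Idx g) v.val g E L0 c e s T x hQS
    have h1 := (hDtv K v.val g E L0 c e s T x _ _ l hQS hwx hper R r k).1 (inf_two v)
    rw [prod_split] at h1
    refine pow_bd (v.val.nonneg _) (hy v.val) ?_
    exact h1.trans (mul_le_mul_of_nonneg_right hC'2 (hPQ v.val))
  -- the place of `φ`
  obtain ⟨X, hX⟩ : ∃ X : ℝ, X = 2 * Real.pi * lam * (L : ℝ) ^ 2 := ⟨_, rfl⟩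
  have hX0 : 0 ≤ X := by
    rw [hX]
    have := Real.pi_pos
    have : 0 ≤ lam := by linarith
    positivity
  have hpe : Real.exp X ^ R' * Real.exp (-X) ^ R' = 1 := by
    rw [← mul_pow, ← Real.exp_add, add_neg_cancel, Real.exp_zero, one_pow]
  have hv0 : (Real.exp X ^ R' * (NumberField.InfinitePlace.mk φ).val (IM l e T r k).det) ^ (2 * E) ≤
      (NumberField.InfinitePlace.mk φ).val y *
        (C' * nv (NumberField.InfinitePlace.mk φ).val (T 0) ^ R) ^ (2 * E) := by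
    change (Real.exp X ^ R' * (NumberField.place φ) (IM l e T r k).det) ^ (2 * E) ≤
      (NumberField.place φ) y * (C' * nv (NumberField.place φ) (T 0) ^ R) ^ (2 * E)
    have hwx := hWtx K (Idx g) (NumberField.place φ) g E L0 c e s T x hQS
    have h1 := hAmi g K φ (NumberField.place φ) (fun y => NumberField.place_apply φ y) τ hτ z l E
      L0 c e s T x hl hlo hQS hwx hper ν η hν hη hM κ0 hκ hW lam h yz L hlam hL1 hh hY hyz R r k hk
    rw [prod_split, ← hR', ← hX, ← hC'] at h1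
    refine pow_bd (mul_nonneg (pow_nonneg (Real.exp_pos _).le _)
      ((NumberField.place φ).nonneg _)) (hy _) ?_
    calc Real.exp X ^ R' * (NumberField.place φ) (IM l e T r k).det
        ≤ Real.exp X ^ R' * (C' * Real.exp (-X) ^ R' *
          ((∏ i : Fin R, Wf (NumberField.place φ) E e (lft (r i).2)) *
            (nv (NumberField.place φ) (T 0) ^ R *
              ∏ j : Fin R, Wf (NumberField.place φ) E e ((l * k j) • Zz g)))) :=
          mul_le_mul_of_nonneg_left h1 (pow_nonneg (Real.exp_pos _).le _)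
      _ = (Real.exp X ^ R' * Real.exp (-X) ^ R') * (C' *
          ((∏ i : Fin R, Wf (NumberField.place φ) E e (lft (r i).2)) *
            (nv (NumberField.place φ) (T 0) ^ R *
              ∏ j : Fin R, Wf (NumberField.place φ) E e ((l * k j) • Zz g)))) := by ring
      _ = _ := by rw [hpe, one_mul]
  -- finite places
  have hfin : ∀ v : NumberField.FinitePlace K,
      (v.val 2 ^ (g * R) * v.val (IM l e T r k).det) ^ (2 * E) ≤
        v.val y * (nv v.val (T 0) ^ R) ^ (2 * E) := by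
    intro v
    have hna : IsNonarchimedean v.val := fun a b => NumberField.FinitePlace.add_le v a b
    have hwx := hWtx K (Idx g) v.val g E L0 c e s T x hQS
    have h1 := (hDtv K v.val g E L0 c e s T x _ _ l hQS hwx hper R r k).2 hna
    rw [prod_split] at h1
    have h2 := pow_bd (A := 1) (m := 2 * E)
      (mul_nonneg (pow_nonneg (v.val.nonneg _) _) (v.val.nonneg _)) (hy v.val)
      (by rw [one_mul]; exact h1)
    rwa [one_mul] at h2
  have hp1 : 1 ≤ Real.exp X ^ R' := one_le_pow₀ (Real.one_le_exp hX0)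
  have hmain := hPga K (Ch g) (T 0) (IM l e T r k).det y (g * R) R (2 * E) C' (Real.exp X ^ R')
    (NumberField.InfinitePlace.mk φ) (hQS.T0 0) hdet hy0 (by linarith) hp1 (by omega) hinf hv0 hfin
  have hHpos : 0 < Height.mulHeight (T 0) := Height.mulHeight_pos _
  have hC'0 : 0 < C' := by linarith
  have hlog := Real.log_le_log (by positivity) hmain
  rw [Real.log_mul (by positivity) (by positivity), Real.log_pow, Real.log_pow, Real.log_pow,
    Real.log_exp] at hlog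
  have hlg0 : 0 ≤ Real.log (C' * 2 ^ (g * R)) :=
    Real.log_nonneg (one_le_mul_of_one_le_of_one_le hC'1 (one_le_pow₀ (by norm_num)))
  refine final_ineq (fr := (Module.finrank ℚ K : ℝ)) (R' := (R' : ℝ)) hσ0 hL
    (by exact_mod_cast hRpos) (by exact_mod_cast hRR') (by linarith) hlg0 (by exact_mod_cast hd)
    (H := Real.log (Height.mulHeight (T 0))) ?_ ?_
  · refine hH.trans ?_
    have := mul_le_mul_of_nonneg_right hσσ (by linarith : (0 : ℝ) ≤ lam)
    linarith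
  · refine le_trans (le_of_eq ?_) hlog
    rw [hX]
    ring

end Pool.Agent.ARC.H34
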